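import Mathlib
import Pool.Agent.Y723.Z8.Stm
import Pool.Agent.TH841.PT.Types
import Pool.Agent.TH841.PT.ExpT
import Pool.Agent.TH841.PT.Merge

/-!
# Z8-EXP: the expansion of the average of the local count into symbols (`S_EXP`)
-/

set_option autoImplicit false

namespace Pool.Agent.Y876.Z8

open Finset Pool.Agent.W262.RK Pool.Agent.W307.RT Pool.Agent.W307.RS Pool.Agent.TH841.PT
  Pool.Agent.Y723.Z8

/-- the class `3` does not occur -/
lemma c7_ne (j : Fin 7) : c7 j ≠ 3 := by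
  fin_cases j <;> simp [c7]

/-- the index set of the expansion -/
def q8 : I4 cls8 ≃ I8 where
  toFun i := (⟨(i.1.1.1, i.1.2), i.2⟩, i.1.1.2)
  invFun x := ⟨((x.1.1.1, x.2), x.1.1.2), x.1.2⟩
  left_inv _ := rfl
  right_inv _ := rfl

/-- the constants -/
lemma κm_eq (i : I4 cls8) : κm cls8 i = 1 := by
  unfold κm
  by_cases h : i.1.2.1 = (false, false) ∨ i.1.2.2 = (false, false)
  · rw [if_pos h]
  · rw [if_neg h]
    exact if_neg (c7_ne i.1.1.1)

/-- the weights before the merging of the types -/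
noncomputable def A8 (x : I8) (p : ℕ) : ℝ :=
  w4 cls8 (q8.symm x) * ((if bit4 cls8 e8 (q8.symm x) then -1 else 1) * rr8 (x.1.1.1, x.2) p)

lemma A8_eq (x : I8) (p : ℕ) : A8 x p = 1 / 2 *
    ((if x.2 = true then (if x.1.1.2.1 = (false, false) ∨ x.1.1.2.2 = (false, false) then 1 else -1)
      else 1) * rr8 (x.1.1.1, x.2) p) := by
  have h1 : w4 cls8 (q8.symm x) = 1 / 2 := by
    unfold w4
    exact if_neg (c7_ne x.1.1.1)
  have h2 : bit4 cls8 e8 (q8.symm x) =
      (if x.1.1.2.1 = (false, false) ∨ x.1.1.2.2 = (false, false) then false else x.2) := by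
    unfold bit4
    by_cases h : x.1.1.2.1 = (false, false) ∨ x.1.1.2.2 = (false, false)
    · rw [if_pos h]
      exact if_pos h
    · rw [if_neg h]
      refine (if_neg h).trans ?_
      exact if_neg (c7_ne x.1.1.1)
  unfold A8
  rw [h1, h2]
  congr 2
  by_cases h : x.1.1.2.1 = (false, false) ∨ x.1.1.2.2 = (false, false)
  · simp [h]
  · cases hx : x.2 <;> simp [h]

/-- the weights of the two copies add up to the weights of the two types -/
lemma sum_A8 (i : I4 c7) :
    (fun p => ∑ θ : Bool, A8 (i, θ) p) = fun p => ∑ θ : Bool, s8 (i, θ) p := by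
  funext p
  rw [Fintype.sum_bool, Fintype.sum_bool, A8_eq, A8_eq]
  unfold s8
  simp only [if_true, Bool.false_eq_true, if_false]
  ring

/-- **EXP** -/
theorem exp : S_EXP := by
  intro z y hz
  have hm1 := MergeF.merge (I4 c7) Bool A8 10 z y (fun d => Sym (L4 c7) (fun _ => 1) d)
  have hm2 := MergeF.merge (I4 c7) Bool s8 10 z y (fun d => Sym (L4 c7) (fun _ => 1) d)
  simp only [sum_A8] at hm1
  rw [ExpT.expt (Fin 7 × Bool) cls8 e8 rr8 10 z y hz, sum_Tup_equiv q8]
  have h1 : ∀ d ∈ Tup I8 z y,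
      (∏ i : I4 cls8, gp (fun p => w4 cls8 i * ((if bit4 cls8 e8 i then -1 else 1) *
        rr8 i.1.1 p)) 10 (d (q8 i))) * Sym (L4 cls8) (κm cls8) (fun i => d (q8 i)) =
      (∏ x, gp (A8 x) 10 (d x)) * Sym (L4 c7) (fun _ => 1) (fun i => ∏ θ, d (i, θ)) := by
    intro d hd
    rw [← Sym_merge (L4 c7) (fun _ => 1) d fun x => Tup_ne hd x,
      ← Sym_equiv q8 (fun x y : I8 => L4 c7 x.1 y.1) (fun _ => 1) d]
    have hk : κm cls8 = fun _ => 1 := funext κm_eq
    rw [hk]
    refine congrArg₂ (fun u v : ℝ => u * v) ?_ ?_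
    · rw [← q8.prod_comp]
      rfl
    · rfl
  have h2 : ∀ d ∈ Tup I8 z y,
      (∏ x, gp (s8 x) 10 (d x)) * Sym (L4 c7) (fun _ => 1) (fun i => ∏ θ, d (i, θ)) =
      (∏ i, gp (s8 i) 10 (d i)) * Sym L8 (fun _ => 1) d := by
    intro d hd
    rw [← Sym_merge (L4 c7) (fun _ => 1) d fun x => Tup_ne hd x]
    rfl
  rw [sum_congr rfl h1, ← sum_congr rfl h2]
  exact hm1.trans hm2.symm

end Pool.Agent.Y876.Z8
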